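import Pool.Agent.Helper78.LD10.Defs
import Pool.Agent.Helper83.LD8.Slow
import Pool.Agent.Helper8.LD8.TestFew

/-!
# Project LD10, block TST10: slow functionals against the test, the children on which the test is not constant
-/

set_option autoImplicit false

namespace Pool.Agent.Helper83.LD10

open Set MeasureTheory Filter Topology
open Pool.Agent.Helper41.LD (av var haar Kk)
open Pool.Agent.Helper41.LD4 (A M W Pot NB NBg)
open Pool.Agent.Helper41.LD6 (hr vr lv Qs vq lev Lv Gr)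
open Pool.Agent.Helper78.LD8 (Pm Uf Tt)
open Pool.Agent.Helper78.LD10

variable {F : Pm} {Q K : ℕ} {ℓst a ℓ x : ℝ} {u u' : ℕ × (Fin (F.d + 1) → ℕ)} {j j' : ℕ}

theorem test_slow (hF : F.Ok) (hK : F.Big K) (hN : F.NR K) (hℓ : 0 < ℓ) {t : ℕ} (ht : (2 : ℝ) ^ (10 * F.E K) ≤ F.V K ℓst t * ℓ)
    (hj : F.V K ℓst j * ℓ < F.Th K) (hu : u ∈ Is F Q K) (hu' : u' ∈ Is F Q K) :
    |av (fun x => G F Q K ℓst u j x * G F Q K ℓst u' t x) a ℓ| ≤ (1 / 2) ^ (10 * F.e K) := by
  have hq := (Finset.mem_product.1 hu).2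
  have hq' := (Finset.mem_product.1 hu').2
  have hz : |av (fun _ => (0 : ℝ)) a ℓ| ≤ (1 / 2) ^ (10 * F.e K) := by
    rw [av]
    simp
  by_cases h1 : (F.n₀ K ℓst + j) % Q = u.1
  · by_cases h2 : (F.n₀ K ℓst + t) % Q = u'.1
    · have h3 : (fun x => G F Q K ℓst u j x * G F Q K ℓst u' t x) =
          fun x => F.G K ℓst u.2 j x * F.G K ℓst u'.2 t x := by
        funext x
        rw [G, G, if_pos h1, if_pos h2]
      rw [h3]
      exact Pool.Agent.Helper83.LD8.test_slow hF hK hN hℓ ht hj hq hq'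
    · have h3 : (fun x => G F Q K ℓst u j x * G F Q K ℓst u' t x) = fun _ => (0 : ℝ) := by
        funext x
        rw [G, G, if_neg h2, mul_zero]
      rw [h3]
      exact hz
  · have h3 : (fun x => G F Q K ℓst u j x * G F Q K ℓst u' t x) = fun _ => (0 : ℝ) := by
      funext x
      rw [G, if_neg h1, zero_mul]
    rw [h3]
    exact hz

open Classical in
theorem test_few (hF : F.Ok) (hK : F.Big K) (hℓ : 0 < ℓ) {t : ℕ} (ht : F.V K ℓst (t + F.d) * ℓ ≤ 2 ^ (11 * F.E K)) (hu : u ∈ Is F Q K) (a : ℝ) :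
    (((Finset.range (2 ^ F.b K)).filter fun b : ℕ => ¬ ∃ v : ℝ, ∀ x ∈ Ioo (a + b * (ℓ / (2 ^ F.b K : ℕ)))
        (a + (b + 1) * (ℓ / (2 ^ F.b K : ℕ))), G F Q K ℓst u t x = v).card : ℝ) ≤ 2 ^ (13 * F.E K) := by
  have hq := (Finset.mem_product.1 hu).2
  by_cases h1 : (F.n₀ K ℓst + t) % Q = u.1
  · have h3 : ∀ x, G F Q K ℓst u t x = F.G K ℓst u.2 t x := by
      intro x
      rw [G, if_pos h1]
    simp only [h3]
    exact Pool.Agent.Helper8.LD8.test_few hF hK hℓ ht hq a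
  · have h3 : ∀ x, G F Q K ℓst u t x = 0 := by
      intro x
      rw [G, if_neg h1]
    rw [Finset.filter_false_of_mem]
    · simp
    · intro b _ h
      exact h ⟨0, fun x _ => h3 x⟩

end Pool.Agent.Helper83.LD10
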